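import Pool.Agent.H34.Step

/-!
Compactness of weights and bar induction.
-/

set_option autoImplicit false
set_option linter.unusedSectionVars false

open Filter Topology

namespace Pool.Agent.H34

section

variable {X : Type*} [NormedAddCommGroup X] [NormedSpace ℝ X]
variable {Y : Type*} [NormedAddCommGroup Y] [NormedSpace ℝ Y]

theorem law_ball {x : ℕ → X} (hx : ∀ n, ‖x n‖ ≤ 1) (P : Proc) :
    Metric.closedBall (0 : X) 1 ∈ law x P :=
  law_avg (H := Metric.closedBall (0 : X) 1)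
    (Filter.Eventually.of_forall (fun n => by simpa [Metric.mem_closedBall] using hx n))
    (avgClosed_of_convex (convex_closedBall 0 1)) P

theorem pw_norm {x : ℕ → X} (hx : ∀ n, ‖x n‖ ≤ 1) (P : Proc) (k : ℕ) :
    {a : X | ‖a‖ ≤ k} ∈ pw (law x P) k := by
  refine Filter.mem_of_superset (pw_sum (law_ball hx P) k) ?_
  rintro a ⟨u, hu, rfl⟩
  rw [Set.mem_ofPred_eq]
  calc ‖∑ i, u i‖ ≤ ∑ i, ‖u i‖ := norm_sum_le _ _
    _ ≤ ∑ _i : Fin k, (1 : ℝ) := by
        apply Finset.sum_le_sum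
        intro i _
        simpa [Metric.mem_closedBall] using hu i
    _ = k := by simp

theorem good_approx {x : ℕ → X} (hx : ∀ n, ‖x n‖ ≤ 1) {D₁ D₂ : ℝ} {z₁ z₂ : X} {l₁ l₂ : ℝ}
    {P P' : Proc} {N : ℕ} (h : Good Y x D₁ z₁ l₁ P P' N)
    (hD : D₁ + ‖z₂ - z₁‖ + 2 * |l₂ - l₁| ≤ D₂) : Good Y x D₂ z₂ l₂ P P' N := by
  intro k hk hdvd r hr
  refine (h k hk hdvd r hr).mono {a : X | ‖a‖ ≤ k} {b : X | ‖b‖ ≤ (k * r : ℕ)}
    (pw_norm hx P k) (pw_norm hx P' (k * r)) ?_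
  intro a ha b hb hab
  rw [Set.mem_ofPred_eq] at ha hb
  have hkr : (0 : ℝ) < k := by exact_mod_cast hk
  have hrr : (0 : ℝ) < r := by exact_mod_cast hr
  unfold rel at *
  have e : (k : ℝ) • z₂ + l₂ • a - (l₂ / r) • b =
      ((k : ℝ) • z₁ + l₁ • a - (l₁ / r) • b) + ((k : ℝ) • (z₂ - z₁) +
        ((l₂ - l₁) • a - ((l₂ - l₁) / r) • b)) := by
    have h1 : (l₂ - l₁) / (r : ℝ) = l₂ / r - l₁ / r := by ring
    rw [h1]
    simp only [smul_sub, sub_smul]
    abel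
  rw [e]
  have h1 : ‖(k : ℝ) • (z₂ - z₁)‖ = k * ‖z₂ - z₁‖ := by
    rw [norm_smul, Real.norm_of_nonneg hkr.le]
  have h2 : ‖(l₂ - l₁) • a‖ ≤ |l₂ - l₁| * k := by
    rw [norm_smul, Real.norm_eq_abs]
    exact mul_le_mul_of_nonneg_left ha (abs_nonneg _)
  have h3 : ‖((l₂ - l₁) / r) • b‖ ≤ |l₂ - l₁| * k := by
    rw [norm_smul, Real.norm_eq_abs, abs_div, abs_of_pos hrr]
    have h4 : ‖b‖ ≤ (k : ℝ) * r := by
      have := hb
      push_cast at this
      exact this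
    calc |l₂ - l₁| / r * ‖b‖ ≤ |l₂ - l₁| / r * (k * r) :=
          mul_le_mul_of_nonneg_left h4 (by positivity)
      _ = |l₂ - l₁| * k := by field_simp
  calc _ ≤ ‖(k : ℝ) • z₁ + l₁ • a - (l₁ / r) • b‖ + ‖(k : ℝ) • (z₂ - z₁) +
        ((l₂ - l₁) • a - ((l₂ - l₁) / r) • b)‖ := norm_add_le _ _
    _ ≤ k * D₁ + (‖(k : ℝ) • (z₂ - z₁)‖ + (‖(l₂ - l₁) • a‖ + ‖((l₂ - l₁) / r) • b‖)) := by
        refine add_le_add hab ((norm_add_le _ _).trans ?_)
        exact add_le_add_right (norm_sub_le _ _) _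
    _ ≤ k * D₁ + (k * ‖z₂ - z₁‖ + (|l₂ - l₁| * k + |l₂ - l₁| * k)) := by
        rw [h1]
        gcongr
    _ = k * (D₁ + ‖z₂ - z₁‖ + 2 * |l₂ - l₁|) := by ring
    _ ≤ k * D₂ := mul_le_mul_of_nonneg_left hD hkr.le

/-- the pair `(z, l)` can be completed by all sufficiently rich processes. -/
def AA (Y : Type*) [NormedAddCommGroup Y] [NormedSpace ℝ Y] (x : ℕ → X) (δ : ℝ) (z : X)
    (l : ℝ) : Prop :=
  ∃ P₀ : Proc, ∀ ε > (0 : ℝ), ∃ N : ℕ, 1 ≤ N ∧ ∀ P P' : Proc, Proc.le P₀ P → Proc.le P₀ P' →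
    Good Y x (δ + ε) z l P P' N

theorem aa_base (x : ℕ → X) (δ : ℝ) (z : X) (hz : ‖z‖ ≤ δ) : AA Y x δ z 0 := by
  refine ⟨Proc.leaf, ?_⟩
  intro ε hε
  refine ⟨1, le_refl _, ?_⟩
  intro P P' _ _ k hk _ r hr
  apply Sim.of_eventually
  have h : ∀ a b : X, rel ((k : ℝ) • z) 0 (0 / (r : ℝ)) (k * (δ + ε)) a b := by
    intro a b
    unfold rel
    have hkr : (0 : ℝ) < k := by exact_mod_cast hk
    simp only [zero_smul, zero_div, add_zero, sub_zero]
    rw [norm_smul, Real.norm_of_nonneg hkr.le]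
    apply mul_le_mul_of_nonneg_left _ hkr.le
    linarith
  refine Filter.Eventually.of_forall ?_
  intro a
  refine Filter.Eventually.of_forall ?_
  intro b
  exact h a b

theorem rat_approx {l a η : ℝ} (ha0 : 0 ≤ a) (hal : a ≤ l) (hl1 : l ≤ 1) (hη : 0 < η) :
    ∃ p q : ℕ, 1 ≤ p ∧ p < q ∧ |l * ((p : ℝ) / q) - a| ≤ η := by
  rcases eq_or_lt_of_le (ha0.trans hal) with h0 | h0
  · refine ⟨1, 2, le_refl _, by norm_num, ?_⟩
    have : a = 0 := le_antisymm (by linarith) ha0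
    rw [← h0, this]
    simp [hη.le]
  · set t : ℝ := a / l with ht
    have ht0 : 0 ≤ t := div_nonneg ha0 h0.le
    have ht1 : t ≤ 1 := (div_le_one h0).mpr hal
    have hlt : max 0 (t - η) < min 1 (t + η) := by
      apply max_lt
      · apply lt_min <;> linarith
      · apply lt_min <;> linarith
    obtain ⟨c, hc1, hc2⟩ := exists_rat_btwn hlt
    have hc0 : (0 : ℝ) < c := lt_of_le_of_lt (le_max_left _ _) hc1
    have hc1' : (c : ℝ) < 1 := lt_of_lt_of_le hc2 (min_le_left _ _)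
    have hc3 : t - η < c := lt_of_le_of_lt (le_max_right _ _) hc1
    have hc4 : (c : ℝ) < t + η := lt_of_lt_of_le hc2 (min_le_right _ _)
    have hcq : (0 : ℚ) < c := by exact_mod_cast hc0
    have hcq1 : c < 1 := by exact_mod_cast hc1'
    have hnum : 0 < c.num := Rat.num_pos.mpr hcq
    have hden : 0 < c.den := c.den_pos
    have hcnd : (c : ℝ) = (c.num.toNat : ℝ) / (c.den : ℝ) := by
      have h1 : (c.num.toNat : ℤ) = c.num := Int.toNat_of_nonneg hnum.le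
      have h2 : ((c.num.toNat : ℕ) : ℝ) = ((c.num : ℤ) : ℝ) := by
        have : (((c.num.toNat : ℕ) : ℤ) : ℝ) = ((c.num : ℤ) : ℝ) := by rw [h1]
        exact_mod_cast this
      rw [h2]
      have := Rat.num_div_den c
      have h3 : ((c.num : ℚ) / (c.den : ℚ) : ℚ) = c := this
      have h4 : (((c.num : ℚ) / (c.den : ℚ) : ℚ) : ℝ) = (c : ℝ) := by rw [h3]
      push_cast at h4
      exact h4.symm
    refine ⟨c.num.toNat, c.den, ?_, ?_, ?_⟩
    · omega
    · have h5 : (c.num.toNat : ℝ) / (c.den : ℝ) < 1 := by rw [← hcnd]; exact hc1'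
      have hdr : (0 : ℝ) < c.den := by exact_mod_cast hden
      rw [div_lt_one hdr] at h5
      exact_mod_cast h5
    · rw [← hcnd]
      have e : l * (c : ℝ) - a = l * (c - t) := by
        rw [mul_sub, ht]
        field_simp
      rw [e, abs_mul, abs_of_pos h0]
      have h6 : |(c : ℝ) - t| ≤ η := by
        rw [abs_le]; constructor <;> linarith
      calc l * |(c : ℝ) - t| ≤ 1 * η := by
            apply mul_le_mul hl1 h6 (abs_nonneg _) (by norm_num)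
        _ = η := one_mul _

theorem stepA (hY : Function.Surjective (NormedSpace.inclusionInDoubleDual ℝ Y))
    {x : ℕ → X} (hx : ∀ n, ‖x n‖ ≤ 1) (δ : ℝ) (C : Set (X × ℝ)) (hC : IsCompact C)
    (hC1 : ∀ p ∈ C, 0 ≤ p.2 ∧ p.2 ≤ 1) (m : ℕ)
    (h : ∀ s t : ℕ, m < s → s < t → ∃ p ∈ C, ∃ a : ℝ, 0 ≤ a ∧ a ≤ p.2 ∧
      AA Y x δ (p.1 + a • (x s - x t)) (p.2 - a)) :
    ∃ p ∈ C, AA Y x δ p.1 p.2 := by
  set K : Set ((X × ℝ) × ℝ) := {w | w.1 ∈ C ∧ 0 ≤ w.2 ∧ w.2 ≤ w.1.2} with hKdef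
  have hKc : IsCompact K := by
    have h1 : IsCompact (C ×ˢ Set.Icc (0 : ℝ) 1) := hC.prod isCompact_Icc
    have h2 : IsClosed {w : (X × ℝ) × ℝ | w.2 ≤ w.1.2} :=
      isClosed_le continuous_snd (continuous_snd.comp continuous_fst)
    have h3 : K = (C ×ˢ Set.Icc (0 : ℝ) 1) ∩ {w : (X × ℝ) × ℝ | w.2 ≤ w.1.2} := by
      ext w
      simp only [hKdef, Set.mem_ofPred_eq, Set.mem_inter_iff, Set.mem_prod, Set.mem_Icc]
      constructor
      · rintro ⟨h4, h5, h6⟩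
        exact ⟨⟨h4, h5, h6.trans (hC1 _ h4).2⟩, h6⟩
      · rintro ⟨⟨h4, h5, _⟩, h6⟩
        exact ⟨h4, h5, h6⟩
    rw [h3]
    exact h1.inter_right h2
  have hdef : ∃ w : (X × ℝ) × ℝ, w ∈ K := by
    obtain ⟨p, hp, a, ha0, ha1, _⟩ := h (m + 1) (m + 2) (by omega) (by omega)
    exact ⟨(p, a), hp, ha0, ha1⟩
  obtain ⟨wd, hwd⟩ := hdef
  have h' : ∀ s t : ℕ, ∃ (w : (X × ℝ) × ℝ) (P₀ : Proc), w ∈ K ∧ (m < s → s < t →
      ∀ ε > (0 : ℝ), ∃ N : ℕ, 1 ≤ N ∧ ∀ P P' : Proc, Proc.le P₀ P → Proc.le P₀ P' →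
        Good Y x (δ + ε) (w.1.1 + w.2 • (x s - x t)) (w.1.2 - w.2) P P' N) := by
    intro s t
    by_cases hst : m < s ∧ s < t
    · obtain ⟨p, hp, a, ha0, ha1, P₀, hP₀⟩ := h s t hst.1 hst.2
      exact ⟨(p, a), P₀, ⟨hp, ha0, ha1⟩, fun _ _ => hP₀⟩
    · exact ⟨wd, Proc.leaf, hwd, fun h1 h2 => absurd ⟨h1, h2⟩ hst⟩
  choose w P₀ hwK hgood using h'
  let W : Ultrafilter (ℕ × ℕ) := UU.bind (fun s => UU.map (fun t => (s, t)))
  have hWK : (W.map (fun st => w st.1 st.2) : Filter ((X × ℝ) × ℝ)) ≤ 𝓟 K := by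
    rw [le_principal_iff, Ultrafilter.mem_coe, Ultrafilter.mem_map]
    have : (fun st : ℕ × ℕ => w st.1 st.2) ⁻¹' K = Set.univ := by
      ext st
      simp [hwK]
    rw [this]
    exact Filter.univ_mem
  obtain ⟨w₀, hw₀, hlim⟩ := hKc.ultrafilter_le_nhds _ hWK
  have hw₀' : w₀.1 ∈ C ∧ 0 ≤ w₀.2 ∧ w₀.2 ≤ w₀.1.2 := hw₀
  refine ⟨w₀.1, hw₀'.1, Proc.node (Proc.supN (fun i => P₀ (Nat.unpair i).1 (Nat.unpair i).2)), ?_⟩
  intro ε hε
  set η : ℝ := ε / 22 with hη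
  have hηpos : 0 < η := by positivity
  obtain ⟨p, q, hp, hpq, hpqa⟩ := rat_approx hw₀'.2.1 hw₀'.2.2 (hC1 _ hw₀'.1).2 hηpos
  refine ⟨q, by omega, ?_⟩
  intro P P' hP hP'
  match P, P', hP, hP' with
  | Proc.node f, Proc.node f', hP, hP' =>
    have hPf : ∀ᶠ n in (UU : Filter ℕ),
      Proc.le (Proc.supN (fun i => P₀ (Nat.unpair i).1 (Nat.unpair i).2) n) (f n) := hP
    have hPf' : ∀ᶠ n in (UU : Filter ℕ),
      Proc.le (Proc.supN (fun i => P₀ (Nat.unpair i).1 (Nat.unpair i).2) n) (f' n) := hP'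
    refine step_core hY x w₀.1.1 w₀.1.2 (δ + ε) p q hp hpq f f' ?_
    have hnear : ∀ᶠ s in (UU : Filter ℕ), ∀ᶠ t in (UU : Filter ℕ), dist (w s t) w₀ < η := by
      have h1 : Metric.ball w₀ η ∈ (W.map (fun st => w st.1 st.2) : Filter ((X × ℝ) × ℝ)) :=
        hlim (Metric.ball_mem_nhds w₀ hηpos)
      exact h1
    filter_upwards [hnear, uu_of_gt m] with s hs hms
    filter_upwards [hs, uu_of_gt s] with t ht hst
    obtain ⟨N, hN1, hN⟩ := hgood s t hms hst (ε / 2) (by linarith)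
    refine ⟨N, hN1, ?_⟩
    have hlef : ∀ᶠ n in (UU : Filter ℕ), Proc.le (P₀ s t) (f n) := by
      filter_upwards [hPf, uu_of_ge (Nat.pair s t)] with n hn hge
      have := Proc.le_supN (fun i => P₀ (Nat.unpair i).1 (Nat.unpair i).2) (Nat.pair s t) n hge
      simp only [Nat.unpair_pair] at this
      exact Proc.le_trans _ _ _ this hn
    have hlef' : ∀ᶠ n in (UU : Filter ℕ), Proc.le (P₀ s t) (f' n) := by
      filter_upwards [hPf', uu_of_ge (Nat.pair s t)] with n hn hge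
      have := Proc.le_supN (fun i => P₀ (Nat.unpair i).1 (Nat.unpair i).2) (Nat.pair s t) n hge
      simp only [Nat.unpair_pair] at this
      exact Proc.le_trans _ _ _ this hn
    filter_upwards [hlef] with n hn
    filter_upwards [hlef'] with n' hn'
    refine good_approx hx (hN (f n) (f' n') hn hn') ?_
    have hd1 : dist (w s t).1 w₀.1 < η := lt_of_le_of_lt (le_max_left _ _) ht
    have hd2 : dist (w s t).2 w₀.2 < η := lt_of_le_of_lt (le_max_right _ _) ht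
    have hd3 : dist (w s t).1.1 w₀.1.1 < η := lt_of_le_of_lt (le_max_left _ _) hd1
    have hd4 : dist (w s t).1.2 w₀.1.2 < η := lt_of_le_of_lt (le_max_right _ _) hd1
    rw [dist_eq_norm] at hd3
    rw [Real.dist_eq] at hd2 hd4
    set c : ℝ := (p : ℝ) / q with hc
    set z := w₀.1.1
    set l := w₀.1.2
    set a := w₀.2
    set z' := (w s t).1.1
    set l' := (w s t).1.2
    set a' := (w s t).2
    have hb1 : |l * c - a'| ≤ 2 * η := by
      have e : l * c - a' = (l * c - a) - (a' - a) := by ring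
      rw [e]
      refine (abs_sub _ _).trans ?_
      linarith
    have hxx : ‖x s - x t‖ ≤ 2 := by
      refine (norm_sub_le _ _).trans ?_
      linarith [hx s, hx t]
    have hb2 : ‖z + (l * c) • (x s - x t) - (z' + a' • (x s - x t))‖ ≤ 5 * η := by
      have e : z + (l * c) • (x s - x t) - (z' + a' • (x s - x t)) =
        -(z' - z) + (l * c - a') • (x s - x t) := by
        rw [sub_smul]; abel
      rw [e]
      refine (norm_add_le _ _).trans ?_
      rw [norm_neg, norm_smul, Real.norm_eq_abs]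
      have : |l * c - a'| * ‖x s - x t‖ ≤ (2 * η) * 2 :=
        mul_le_mul hb1 hxx (norm_nonneg _) (by positivity)
      linarith
    have hb3 : |l * (1 - c) - (l' - a')| ≤ 3 * η := by
      have e : l * (1 - c) - (l' - a') = -(l' - l) - (l * c - a') := by ring
      rw [e]
      refine (abs_sub _ _).trans ?_
      rw [abs_neg]
      linarith
    have e5 : η * 22 = ε := by rw [hη]; ring
    linarith

end

end Pool.Agent.H34
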