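import Pool.Agent.H34.Bar

/-!
Mazur's lemma, the bar argument, and weak sequential completeness.
-/

set_option autoImplicit false
set_option linter.unusedSectionVars false

open Filter Topology

namespace Pool.Agent.H34

section Mazur

variable {X : Type*} [NormedAddCommGroup X] [NormedSpace ℝ X]

/-- finite convex combinations of a sequence. -/
def cset (u : ℕ → X) : Set X :=
  {z | ∃ (n : ℕ) (a : ℕ → ℝ), (∀ i, 0 ≤ a i) ∧ (∀ i, n ≤ i → a i = 0) ∧
    ∑ i ∈ Finset.range n, a i = 1 ∧ z = ∑ i ∈ Finset.range n, a i • u i}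

theorem sum_range_extend {M : Type*} [AddCommMonoid M] {n m : ℕ} (h : n ≤ m) (g : ℕ → M)
    (hg : ∀ i, n ≤ i → g i = 0) : ∑ i ∈ Finset.range n, g i = ∑ i ∈ Finset.range m, g i := by
  apply Finset.sum_subset
  · intro i hi
    rw [Finset.mem_range] at *
    omega
  · intro i _ hi
    rw [Finset.mem_range] at hi
    exact hg i (by omega)

theorem cset_convex (u : ℕ → X) : Convex ℝ (cset u) := by
  intro z₁ hz₁ z₂ hz₂ s t hs ht hst
  obtain ⟨n₁, a₁, ha₁, hb₁, hc₁, rfl⟩ := hz₁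
  obtain ⟨n₂, a₂, ha₂, hb₂, hc₂, rfl⟩ := hz₂
  refine ⟨max n₁ n₂, fun i => s * a₁ i + t * a₂ i, ?_, ?_, ?_, ?_⟩
  · intro i
    have := ha₁ i
    have := ha₂ i
    positivity
  · intro i hi
    have h1 := hb₁ i ((le_max_left _ _).trans hi)
    have h2 := hb₂ i ((le_max_right _ _).trans hi)
    simp [h1, h2]
  · rw [Finset.sum_add_distrib, ← Finset.mul_sum, ← Finset.mul_sum,
      ← sum_range_extend (le_max_left n₁ n₂) a₁ hb₁,
      ← sum_range_extend (le_max_right n₁ n₂) a₂ hb₂, hc₁, hc₂]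
    linarith
  · rw [sum_range_extend (le_max_left n₁ n₂) (fun i => a₁ i • u i)
        (fun i hi => by simp [hb₁ i hi]),
      sum_range_extend (le_max_right n₁ n₂) (fun i => a₂ i • u i)
        (fun i hi => by simp [hb₂ i hi]), Finset.smul_sum, Finset.smul_sum,
      ← Finset.sum_add_distrib]
    apply Finset.sum_congr rfl
    intro i _
    rw [smul_smul, smul_smul, add_smul]

theorem mem_cset (u : ℕ → X) (i : ℕ) : u i ∈ cset u := by
  refine ⟨i + 1, fun j => if j = i then 1 else 0, ?_, ?_, ?_, ?_⟩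
  · intro j
    show (0 : ℝ) ≤ if j = i then 1 else 0
    split_ifs <;> norm_num
  · intro j hj
    have : j ≠ i := by omega
    simp [this]
  · simp
  · simp

theorem mazur (u : ℕ → X) (hu : ∀ ψ : X →L[ℝ] ℝ, Tendsto (fun i => ψ (u i)) atTop (𝓝 0))
    (δ : ℝ) (hδ : 0 < δ) : ∃ z ∈ cset u, ‖z‖ ≤ δ := by
  have h0 : (0 : X) ∈ closure (cset u) := by
    by_contra hcon
    obtain ⟨ψ, c, hψ0, hψ⟩ := geometric_hahn_banach_point_closed (cset_convex u).closure
      isClosed_closure hcon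
    rw [map_zero] at hψ0
    have h1 : ∀ i, c < ψ (u i) := fun i => hψ _ (subset_closure (mem_cset u i))
    have h2 : c ≤ 0 := ge_of_tendsto' (hu ψ) (fun i => (h1 i).le)
    linarith
  rw [Metric.mem_closure_iff] at h0
  obtain ⟨z, hz, hd⟩ := h0 δ hδ
  refine ⟨z, hz, ?_⟩
  rw [dist_zero_left] at hd
  exact hd.le

end Mazur

section BarSection

variable {X : Type*} [NormedAddCommGroup X] [NormedSpace ℝ X]
variable {Y : Type*} [NormedAddCommGroup Y] [NormedSpace ℝ Y]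

/-- the successor of a set of partial weights. -/
def nxt (x : ℕ → X) (C : Set (X × ℝ)) (s t : ℕ) : Set (X × ℝ) :=
  (fun w : (X × ℝ) × ℝ => (w.1.1 + w.2 • (x s - x t), w.1.2 - w.2)) ''
    {w | w.1 ∈ C ∧ 0 ≤ w.2 ∧ w.2 ≤ w.1.2}

theorem nxt_compact (x : ℕ → X) (C : Set (X × ℝ)) (hC : IsCompact C)
    (hC1 : ∀ p ∈ C, 0 ≤ p.2 ∧ p.2 ≤ 1) (s t : ℕ) : IsCompact (nxt x C s t) := by
  apply IsCompact.image
  · have h1 : IsCompact (C ×ˢ Set.Icc (0 : ℝ) 1) := hC.prod isCompact_Icc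
    have h2 : IsClosed {w : (X × ℝ) × ℝ | w.2 ≤ w.1.2} :=
      isClosed_le continuous_snd (continuous_snd.comp continuous_fst)
    have h3 : {w : (X × ℝ) × ℝ | w.1 ∈ C ∧ 0 ≤ w.2 ∧ w.2 ≤ w.1.2} =
        (C ×ˢ Set.Icc (0 : ℝ) 1) ∩ {w : (X × ℝ) × ℝ | w.2 ≤ w.1.2} := by
      ext w
      simp only [Set.mem_ofPred_eq, Set.mem_inter_iff, Set.mem_prod, Set.mem_Icc]
      constructor
      · rintro ⟨h4, h5, h6⟩
        exact ⟨⟨h4, h5, h6.trans (hC1 _ h4).2⟩, h6⟩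
      · rintro ⟨⟨h4, h5, _⟩, h6⟩
        exact ⟨h4, h5, h6⟩
    rw [h3]
    exact h1.inter_right h2
  · fun_prop

theorem nxt_bounds (x : ℕ → X) (C : Set (X × ℝ))
    (hC1 : ∀ p ∈ C, 0 ≤ p.2 ∧ p.2 ≤ 1) (s t : ℕ) : ∀ p ∈ nxt x C s t, 0 ≤ p.2 ∧ p.2 ≤ 1 := by
  rintro p ⟨w, ⟨hw1, hw2, hw3⟩, rfl⟩
  have := hC1 _ hw1
  constructor
  · show 0 ≤ w.1.2 - w.2
    linarith
  · show w.1.2 - w.2 ≤ 1
    linarith

theorem bar (hY : Function.Surjective (NormedSpace.inclusionInDoubleDual ℝ Y))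
    {x : ℕ → X} (hx : ∀ n, ‖x n‖ ≤ 1)
    (hw : ∀ ψ : X →L[ℝ] ℝ, CauchySeq (fun n => ψ (x n))) (δ : ℝ) (hδ : 0 < δ) :
    AA Y x δ 0 1 := by
  by_contra hcon
  let S : Type _ := {Cm : Set (X × ℝ) × ℕ // IsCompact Cm.1 ∧ (∀ p ∈ Cm.1, 0 ≤ p.2 ∧ p.2 ≤ 1) ∧
    ∀ p ∈ Cm.1, ¬ AA Y x δ p.1 p.2}
  have hnext : ∀ σ : S, ∃ s t : ℕ, σ.1.2 < s ∧ s < t ∧
      ∀ p ∈ nxt x σ.1.1 s t, ¬ AA Y x δ p.1 p.2 := by
    intro σ
    by_contra hc
    push Not at hc
    obtain ⟨p, hp, hA⟩ := stepA hY hx δ σ.1.1 σ.2.1 σ.2.2.1 σ.1.2 (by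
      intro s t hs ht
      obtain ⟨p, ⟨w, ⟨hw1, hw2, hw3⟩, rfl⟩, hA⟩ := hc s t hs ht
      exact ⟨w.1, hw1, w.2, hw2, hw3, hA⟩)
    exact σ.2.2.2 p hp hA
  choose s t hs ht hno using hnext
  let start : S := ⟨({((0 : X), (1 : ℝ))}, 0), isCompact_singleton, by
    intro p hp
    have : p = ((0 : X), (1 : ℝ)) := hp
    rw [this]
    norm_num, by
    intro p hp
    have : p = ((0 : X), (1 : ℝ)) := hp
    rw [this]
    exact hcon⟩
  let step : S → S := fun σ => ⟨(nxt x σ.1.1 (s σ) (t σ), t σ),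
    nxt_compact x _ σ.2.1 σ.2.2.1 _ _, nxt_bounds x _ σ.2.2.1 _ _, hno σ⟩
  let q : ℕ → S := fun n => Nat.rec start (fun _ σ => step σ) n
  have hq0 : q 0 = start := rfl
  have hqs : ∀ n, q (n + 1) = step (q n) := fun n => rfl
  let u : ℕ → X := fun i => x (s (q i)) - x (t (q i))
  have hm : ∀ n, n ≤ (q n).1.2 := by
    intro n
    induction n with
    | zero => exact Nat.zero_le _
    | succ n ih =>
      have h1 : (q (n + 1)).1.2 = t (q n) := rfl
      have h2 := hs (q n)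
      have h3 := ht (q n)
      omega
  have hs' : Tendsto (fun i => s (q i)) atTop atTop := by
    apply tendsto_atTop_mono (f := fun i : ℕ => i) _ tendsto_id
    intro i
    have h1 := hm i
    have h2 := hs (q i)
    show i ≤ s (q i)
    omega
  have ht' : Tendsto (fun i => t (q i)) atTop atTop := by
    apply tendsto_atTop_mono (f := fun i : ℕ => i) _ tendsto_id
    intro i
    have h1 := hm i
    have h2 := hs (q i)
    have h3 := ht (q i)
    show i ≤ t (q i)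
    omega
  have hu : ∀ ψ : X →L[ℝ] ℝ, Tendsto (fun i => ψ (u i)) atTop (𝓝 0) := by
    intro ψ
    obtain ⟨c, hc⟩ := cauchySeq_tendsto_of_complete (hw ψ)
    have h1 := (hc.comp hs').sub (hc.comp ht')
    rw [sub_self] at h1
    refine h1.congr ?_
    intro i
    show ψ (x (s (q i))) - ψ (x (t (q i))) = ψ (x (s (q i)) - x (t (q i)))
    rw [map_sub]
  have hmem : ∀ (a : ℕ → ℝ), (∀ i, 0 ≤ a i) → ∀ n, ∑ i ∈ Finset.range n, a i ≤ 1 →
      (∑ i ∈ Finset.range n, a i • u i, 1 - ∑ i ∈ Finset.range n, a i) ∈ (q n).1.1 := by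
    intro a ha n
    induction n with
    | zero =>
      intro _
      simp only [Finset.range_zero, Finset.sum_empty, sub_zero]
      exact Set.mem_singleton _
    | succ n ih =>
      intro hsum
      rw [Finset.sum_range_succ] at hsum
      have h1 := ih (by linarith [ha n])
      show _ ∈ nxt x (q n).1.1 (s (q n)) (t (q n))
      refine ⟨((∑ i ∈ Finset.range n, a i • u i, 1 - ∑ i ∈ Finset.range n, a i), a n),
        ⟨h1, ha n, ?_⟩, ?_⟩
      · show a n ≤ 1 - ∑ i ∈ Finset.range n, a i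
        linarith
      · rw [Finset.sum_range_succ, Finset.sum_range_succ]
        ext
        · rfl
        · show 1 - ∑ i ∈ Finset.range n, a i - a n = 1 - (∑ i ∈ Finset.range n, a i + a n)
          ring
  obtain ⟨z, ⟨n, a, ha, _, hasum, rfl⟩, hz⟩ := mazur u hu δ hδ
  have h1 := hmem a ha n hasum.le
  rw [hasum, sub_self] at h1
  exact (q n).2.2.2 _ h1 (aa_base x δ _ hz)

end BarSection

section Final

variable {X : Type*} [NormedAddCommGroup X] [NormedSpace ℝ X]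
variable {Y : Type*} [NormedAddCommGroup Y] [NormedSpace ℝ Y]

theorem bounded_of_uc (f : Metric.closedBall (0 : X) 1 → Y) (hf : UniformContinuous f) :
    ∃ C : ℝ, ∀ a, ‖f a‖ ≤ C := by
  rw [Metric.uniformContinuous_iff] at hf
  obtain ⟨δ, hδ, h⟩ := hf 1 one_pos
  obtain ⟨n, hn⟩ := exists_nat_gt (1 / δ)
  have hnpos : (0 : ℝ) < n := lt_trans (by positivity) hn
  have h0 : (0 : X) ∈ Metric.closedBall (0 : X) 1 := by simp
  refine ⟨‖f ⟨0, h0⟩‖ + n, ?_⟩
  intro a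
  have hmem : ∀ j : ℕ, j ≤ n → ((j : ℝ) / n) • (a : X) ∈ Metric.closedBall (0 : X) 1 := by
    intro j hj
    rw [mem_closedBall_zero_iff, norm_smul]
    have h1 : ‖(a : X)‖ ≤ 1 := mem_closedBall_zero_iff.mp a.2
    have h2 : ‖(j : ℝ) / n‖ ≤ 1 := by
      rw [Real.norm_of_nonneg (by positivity), div_le_one hnpos]
      exact_mod_cast hj
    calc ‖(j : ℝ) / n‖ * ‖(a : X)‖ ≤ 1 * 1 :=
          mul_le_mul h2 h1 (norm_nonneg _) (by norm_num)
      _ = 1 := by norm_num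
  have key : ∀ j : ℕ, ∀ hj : j ≤ n, ‖f ⟨_, hmem j hj⟩‖ ≤ ‖f ⟨0, h0⟩‖ + j := by
    intro j
    induction j with
    | zero =>
      intro hj
      have e : (⟨(((0 : ℕ) : ℝ) / n) • (a : X), hmem 0 hj⟩ : Metric.closedBall (0 : X) 1) =
        ⟨0, h0⟩ := by
        apply Subtype.ext
        simp
      rw [e]
      simp
    | succ j ih =>
      intro hj
      have h1 := ih (by omega)
      have hd : dist (⟨_, hmem (j + 1) hj⟩ : Metric.closedBall (0 : X) 1)
          ⟨_, hmem j (by omega)⟩ < δ := by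
        rw [Subtype.dist_eq, dist_eq_norm]
        have e : (((j + 1 : ℕ) : ℝ) / n) • (a : X) - ((j : ℝ) / n) • (a : X) =
          ((1 : ℝ) / n) • (a : X) := by
          rw [← sub_smul]
          congr 1
          push_cast
          ring
        rw [e, norm_smul, Real.norm_of_nonneg (by positivity)]
        have h3 : ‖(a : X)‖ ≤ 1 := mem_closedBall_zero_iff.mp a.2
        have h4 : (1 : ℝ) / n < δ := by
          rw [div_lt_iff₀ hnpos]
          rw [div_lt_iff₀ hδ] at hn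
          linarith
        calc (1 : ℝ) / n * ‖(a : X)‖ ≤ (1 : ℝ) / n * 1 :=
              mul_le_mul_of_nonneg_left h3 (by positivity)
          _ < δ := by linarith
      have h2 := h hd
      rw [dist_eq_norm] at h2
      have h5 : ‖f ⟨_, hmem (j + 1) hj⟩‖ ≤ ‖f ⟨_, hmem j (by omega)⟩‖ +
          ‖f ⟨_, hmem (j + 1) hj⟩ - f ⟨_, hmem j (by omega)⟩‖ := by
        have := norm_add_le (f ⟨_, hmem j (by omega)⟩)
          (f ⟨_, hmem (j + 1) hj⟩ - f ⟨_, hmem j (by omega)⟩)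
        rwa [add_sub_cancel] at this
      have e2 : ((j + 1 : ℕ) : ℝ) = j + 1 := by push_cast; ring
      calc _ ≤ _ := h5
        _ ≤ (‖f ⟨0, h0⟩‖ + j) + 1 := add_le_add h1 h2.le
        _ = ‖f ⟨0, h0⟩‖ + ((j + 1 : ℕ) : ℝ) := by rw [e2]; ring
  have h6 := key n le_rfl
  have e : (⟨((n : ℝ) / n) • (a : X), hmem n le_rfl⟩ : Metric.closedBall (0 : X) 1) = a := by
    apply Subtype.ext
    show ((n : ℝ) / n) • (a : X) = a
    rw [div_self hnpos.ne', one_smul]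
  rw [e] at h6
  exact h6

theorem main_ball [CompleteSpace X]
    (hY : Function.Surjective (NormedSpace.inclusionInDoubleDual ℝ Y))
    (f : Metric.closedBall (0 : X) 1 → Y) (hf : IsUniformEmbedding f)
    (x : ℕ → X) (hx : ∀ n, ‖x n‖ ≤ 1)
    (hw : ∀ ψ : X →L[ℝ] ℝ, CauchySeq (fun n => ψ (x n))) :
    ∃ x₀ : X, ∀ ψ : X →L[ℝ] ℝ, Tendsto (fun n => ψ (x n)) atTop (𝓝 (ψ x₀)) := by
  -- the weak star limit in the bidual
  obtain ⟨Φ, hΦ, hlim⟩ := exists_wsl (Y := StrongDual ℝ X) UU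
    (fun n => NormedSpace.inclusionInDoubleDual ℝ X (x n)) 1 (by
      intro n
      exact (NormedSpace.double_dual_bound ℝ X (x n)).trans (hx n))
  have hlimU : ∀ ψ : X →L[ℝ] ℝ, Tendsto (fun n => ψ (x n)) (UU : Filter ℕ) (𝓝 (Φ ψ)) := by
    intro ψ
    have := hlim ψ
    simpa using this
  have hlim' : ∀ ψ : X →L[ℝ] ℝ, Tendsto (fun n => ψ (x n)) atTop (𝓝 (Φ ψ)) := by
    intro ψ
    obtain ⟨c, hc⟩ := cauchySeq_tendsto_of_complete (hw ψ)
    have h1 : Tendsto (fun n => ψ (x n)) (UU : Filter ℕ) (𝓝 c) :=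
      hc.mono_left Nat.hyperfilter_le_atTop
    have h2 : c = Φ ψ := tendsto_nhds_unique h1 (hlimU ψ)
    rw [← h2]
    exact hc
  let J := NormedSpace.inclusionInDoubleDualLi ℝ (E := X)
  by_cases hΦr : Φ ∈ Set.range J
  · obtain ⟨x₀, hx₀⟩ := hΦr
    refine ⟨x₀, ?_⟩
    intro ψ
    have h1 : Φ ψ = ψ x₀ := by
      rw [← hx₀]
      rfl
    rw [← h1]
    exact hlim' ψ
  exfalso
  have hclosed : IsClosed (Set.range J) := by
    have h1 : IsComplete (Set.range J) := J.isometry.isUniformInducing.isComplete_range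
    exact h1.isClosed
  obtain ⟨θ, hθ, hθJ⟩ : ∃ θ > (0 : ℝ), ∀ a : X, θ < ‖Φ - J a‖ := by
    have h1 : (Set.range J)ᶜ ∈ 𝓝 Φ := hclosed.isOpen_compl.mem_nhds hΦr
    rw [Metric.mem_nhds_iff] at h1
    obtain ⟨ε, hε, hball⟩ := h1
    refine ⟨ε / 2, by positivity, ?_⟩
    intro a
    by_contra hcon
    push Not at hcon
    have h2 : J a ∈ Metric.ball Φ ε := by
      have h3 := dist_eq_norm (J a) Φ
      have h4 := norm_sub_rev (J a) Φ
      have h5 : dist (J a) Φ = ‖Φ - J a‖ := h3.trans h4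
      rw [Metric.mem_ball, h5]
      linarith
    exact hball h2 ⟨a, rfl⟩
  -- separation
  have hsep : ∀ a : X, ∃ H : Set X, AvgClosed H ∧ (∀ᶠ s in (UU : Filter ℕ), x s ∈ H) ∧
      H ⊆ {b : X | θ ≤ ‖b - a‖} := by
    intro a
    obtain ⟨ψ, hψ1, hψ2⟩ := ContinuousLinearMap.exists_lt_apply_of_lt_opNorm (Φ - J a) (hθJ a)
    have hψval : (Φ - J a) ψ = Φ ψ - ψ a := rfl
    rw [hψval] at hψ2
    obtain ⟨ψ', hψ'1, hψ'2⟩ : ∃ ψ' : X →L[ℝ] ℝ, ‖ψ'‖ < 1 ∧ θ < Φ ψ' - ψ' a := by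
      rcases le_total 0 (Φ ψ - ψ a) with h | h
      · rw [Real.norm_of_nonneg h] at hψ2
        exact ⟨ψ, hψ1, hψ2⟩
      · rw [Real.norm_of_nonpos h] at hψ2
        refine ⟨-ψ, by rwa [norm_neg], ?_⟩
        have e : Φ (-ψ) - (-ψ) a = -(Φ ψ - ψ a) := by
          rw [map_neg]
          show -(Φ ψ) - -(ψ a) = _
          ring
        rw [e]
        exact hψ2
    have hconv : Convex ℝ {b : X | θ + ψ' a ≤ ψ' b} :=
      convex_halfSpace_ge (ψ'.isLinear) _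
    have h3 : ∀ᶠ s in (UU : Filter ℕ), x s ∈ {b : X | θ + ψ' a ≤ ψ' b} := by
      have h4 : θ + ψ' a < Φ ψ' := by linarith
      have h5 := (hlimU ψ').eventually (lt_mem_nhds h4)
      filter_upwards [h5] with s hs
      exact hs.le
    refine ⟨{b : X | θ + ψ' a ≤ ψ' b}, avgClosed_of_convex hconv, h3, ?_⟩
    intro b hb
    rw [Set.mem_ofPred_eq] at *
    have h6 : θ ≤ ψ' (b - a) := by
      rw [map_sub]
      linarith
    have h7 : ψ' (b - a) ≤ ‖ψ'‖ * ‖b - a‖ :=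
      (le_abs_self _).trans (ψ'.le_opNorm (b - a))
    have h8 : ‖ψ'‖ * ‖b - a‖ ≤ 1 * ‖b - a‖ :=
      mul_le_mul_of_nonneg_right hψ'1.le (norm_nonneg _)
    linarith
  -- the uniform embedding
  rw [Metric.isUniformEmbedding_iff] at hf
  obtain ⟨_, hfu, hfi⟩ := hf
  obtain ⟨κ, hκ, hκf⟩ := hfi θ hθ
  obtain ⟨C, hC⟩ := bounded_of_uc f hfu
  rw [Metric.uniformContinuous_iff] at hfu
  obtain ⟨δ, hδ, hδf⟩ := hfu (κ / 8) (by positivity)
  classical
  let g : X → Y := fun a => if h : a ∈ Metric.closedBall (0 : X) 1 then f ⟨a, h⟩ else 0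
  have hg : ∀ a (h : a ∈ Metric.closedBall (0 : X) 1), g a = f ⟨a, h⟩ := by
    intro a h
    simp only [g, dif_pos h]
  have hgb : ∀ a, ‖g a‖ ≤ max C 0 := by
    intro a
    by_cases h : a ∈ Metric.closedBall (0 : X) 1
    · rw [hg a h]
      exact (hC _).trans (le_max_left _ _)
    · simp only [g, dif_neg h, norm_zero]
      exact le_max_right _ _
  -- the coupling
  obtain ⟨P₀, hP₀⟩ := bar hY hx hw (δ / 3) (by positivity)
  obtain ⟨N, hN1, hN⟩ := hP₀ (δ / 3) (by positivity)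
  have hGood := hN P₀ P₀ (Proc.le_refl _) (Proc.le_refl _) N hN1 (dvd_refl _) 1 le_rfl
  rw [Nat.mul_one] at hGood
  have hNr : (0 : ℝ) < N := by exact_mod_cast hN1
  set 𝒰 : Ultrafilter X := (pw (law x P₀) N).map (fun a => (N : ℝ)⁻¹ • a) with h𝒰
  have hSim : Sim Y 𝒰 𝒰 (fun a b => ‖a - b‖ < δ) := by
    apply Sim.map
    refine hGood.mono' ?_
    intro a b hab
    have h1 := rel_smul (t := (N : ℝ)⁻¹) (by positivity) hab
    unfold rel at h1
    have e1 : (N : ℝ)⁻¹ * ((N : ℝ) * (δ / 3 + δ / 3)) = δ / 3 + δ / 3 := by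
      rw [← mul_assoc, inv_mul_cancel₀ hNr.ne', one_mul]
    rw [e1] at h1
    simp only [smul_zero, zero_add, mul_one, Nat.cast_one, div_one] at h1
    show ‖(N : ℝ)⁻¹ • a - (N : ℝ)⁻¹ • b‖ < δ
    linarith
  have hball : Metric.closedBall (0 : X) 1 ∈ 𝒰 :=
    pw_avg (law_ball hx P₀) (avgClosed_of_convex (convex_closedBall 0 1)) N hN1
  obtain ⟨y₀, hy₀C, hy₀⟩ := exists_wl hY 𝒰 g (max C 0) hgb
  let y : X → Y := fun a => g a - y₀
  have hyb : ∀ a, ‖y a‖ ≤ max C 0 + max C 0 := fun a =>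
    (norm_sub_le _ _).trans (add_le_add (hgb a) hy₀C)
  have hyl : WL 𝒰 y 0 := by
    intro ψ
    have h1 := (hy₀ ψ).sub (tendsto_const_nhds (x := ψ y₀))
    rw [sub_self] at h1
    rw [map_zero]
    refine h1.congr ?_
    intro a
    show ψ (g a) - ψ y₀ = ψ (g a - y₀)
    rw [map_sub]
  choose φ hφ1 hφ2 using fun b : X => exists_dual_vector'' ℝ (y b)
  obtain ⟨φ₀, _, hφ₀⟩ := exists_wsl 𝒰 φ 1 hφ1
  have hclose : {b : X | ‖y b‖ < κ / 2} ∈ 𝒰 := by
    by_contra hcon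
    have hE : {b : X | ‖y b‖ < κ / 2}ᶜ ∈ 𝒰 := Ultrafilter.compl_mem_iff_notMem.mpr hcon
    obtain ⟨a, ha, b, hb, hab, hlt⟩ := hSim y φ (max (max C 0 + max C 0) 1)
      (fun a => (hyb a).trans (le_max_left _ _)) (fun a => (hφ1 a).trans (le_max_right _ _))
      0 φ₀ hyl hφ₀ (Metric.closedBall (0 : X) 1) hball
      ({b : X | ‖y b‖ < κ / 2}ᶜ ∩ Metric.closedBall (0 : X) 1) (Filter.inter_mem hE hball)
      (κ / 8) (by positivity)
    rw [map_zero, sub_zero] at hlt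
    have hb1 : ¬ ‖y b‖ < κ / 2 := hb.1
    have h1 : ‖g b - g a‖ < κ / 8 := by
      rw [hg a ha, hg b hb.2, ← dist_eq_norm]
      apply hδf
      rw [Subtype.dist_eq, dist_eq_norm, norm_sub_rev]
      exact hab
    have h2 : ‖y b‖ = φ b (g b - g a) + φ b (y a) := by
      have h3 : φ b (y b) = ‖y b‖ := by
        have := hφ2 b
        simpa using this
      rw [← h3, ← map_add]
      congr 1
      show g b - y₀ = (g b - g a) + (g a - y₀)
      abel
    have h4 : φ b (g b - g a) ≤ ‖g b - g a‖ := by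
      have h5 := (le_abs_self _).trans ((φ b).le_opNorm (g b - g a))
      have h6 : ‖φ b‖ * ‖g b - g a‖ ≤ 1 * ‖g b - g a‖ :=
        mul_le_mul_of_nonneg_right (hφ1 b) (norm_nonneg _)
      linarith
    have h7 := (le_abs_self (φ b (y a))).trans_lt hlt
    apply hb1
    rw [h2]
    linarith
  obtain ⟨b₀, hb₀1, hb₀2⟩ := Ultrafilter.nonempty_of_mem (Filter.inter_mem hclose hball)
  have hfar : {b : X | θ ≤ ‖b - b₀‖} ∈ 𝒰 := by
    obtain ⟨H, hH1, hH2, hH3⟩ := hsep b₀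
    have h5 : H ∈ 𝒰 := pw_avg (law_avg (x := x) (H := H) hH2 hH1 P₀) hH1 N hN1
    exact Filter.mem_of_superset h5 hH3
  obtain ⟨b, ⟨hb1, hb2⟩, hb3⟩ :=
    Ultrafilter.nonempty_of_mem (Filter.inter_mem (Filter.inter_mem hclose hball) hfar)
  rw [Set.mem_ofPred_eq] at hb₀1 hb1 hb3
  have h1 : dist (f ⟨b, hb2⟩) (f ⟨b₀, hb₀2⟩) < κ := by
    rw [← hg b hb2, ← hg b₀ hb₀2, dist_eq_norm]
    have e : g b - g b₀ = y b - y b₀ := by
      show g b - g b₀ = (g b - y₀) - (g b₀ - y₀)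
      abel
    rw [e]
    refine (norm_sub_le _ _).trans_lt ?_
    linarith
  have h2 := hκf h1
  rw [Subtype.dist_eq, dist_eq_norm] at h2
  linarith

end Final

end Pool.Agent.H34
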