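import Pool.Agent.H34.Sim

/-!
Averaging processes, their laws, and the coupling statement `Good`.
-/

set_option autoImplicit false
set_option linter.unusedSectionVars false

open Filter Topology

namespace Pool.Agent.H34

/-- the ultrafilter on the naturals used for all moves. -/
noncomputable abbrev UU : Ultrafilter ℕ := hyperfilter ℕ

theorem uu_of_ge (m : ℕ) : ∀ᶠ n in (UU : Filter ℕ), m ≤ n :=
  (Nat.hyperfilter_le_atTop) (eventually_ge_atTop m)

theorem uu_of_gt (m : ℕ) : ∀ᶠ n in (UU : Filter ℕ), m < n :=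
  (Nat.hyperfilter_le_atTop) (eventually_gt_atTop m)

/-- averaging processes. -/
inductive Proc : Type
  | leaf : Proc
  | node : (ℕ → Proc) → Proc

namespace Proc

/-- `le P Q`: the process `Q` is at least as rich as `P`. -/
def le : Proc → Proc → Prop
  | leaf, _ => True
  | node _, leaf => False
  | node f, node g => ∀ᶠ n in (UU : Filter ℕ), le (f n) (g n)

theorem le_refl (P : Proc) : le P P := by
  induction P with
  | leaf => exact trivial
  | node f ih => exact Filter.Eventually.of_forall ih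

theorem le_trans (P : Proc) : ∀ Q R : Proc, le P Q → le Q R → le P R := by
  induction P with
  | leaf => intro Q R _ _; exact trivial
  | node f ih =>
    intro Q R h1 h2
    match Q, R, h1, h2 with
    | node g, node h, h1, h2 =>
      have h1' : ∀ᶠ n in (UU : Filter ℕ), le (f n) (g n) := h1
      have h2' : ∀ᶠ n in (UU : Filter ℕ), le (g n) (h n) := h2
      show ∀ᶠ n in (UU : Filter ℕ), le (f n) (h n)
      filter_upwards [h1', h2'] with n a b
      exact ih n _ _ a b

/-- a common upper bound of two processes. -/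
def join : Proc → Proc → Proc
  | leaf, Q => Q
  | node f, leaf => node f
  | node f, node g => node (fun n => join (f n) (g n))

theorem le_join_left (P : Proc) : ∀ Q : Proc, le P (join P Q) := by
  induction P with
  | leaf => intro Q; exact trivial
  | node f ih =>
    intro Q
    match Q with
    | leaf => exact le_refl _
    | node g => exact Filter.Eventually.of_forall (fun n => ih n (g n))

theorem le_join_right (P : Proc) : ∀ Q : Proc, le Q (join P Q) := by
  induction P with
  | leaf => intro Q; exact le_refl Q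
  | node f ih =>
    intro Q
    match Q with
    | leaf => exact trivial
    | node g => exact Filter.Eventually.of_forall (fun n => ih n (g n))

/-- running upper bounds of a sequence of processes. -/
def supN (g : ℕ → Proc) : ℕ → Proc
  | 0 => g 0
  | n + 1 => join (supN g n) (g (n + 1))

theorem le_supN (g : ℕ → Proc) (i : ℕ) : ∀ n, i ≤ n → le (g i) (supN g n) := by
  intro n
  induction n with
  | zero =>
    intro h
    have : i = 0 := by omega
    subst this
    exact le_refl _
  | succ n ih =>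
    intro h
    rcases Nat.lt_or_ge n i with h1 | h1
    · have : i = n + 1 := by omega
      subst this
      exact le_join_right _ _
    · exact le_trans _ _ _ (ih h1) (le_join_left _ _)

end Proc

section Laws

variable {X : Type*} [NormedAddCommGroup X] [NormedSpace ℝ X]

theorem conv_assoc (U V W : Ultrafilter X) : conv (conv U V) W = conv U (conv V W) := by
  ext S
  simp only [mem_conv]
  have : ∀ a : X, {b | {c | a + b + c ∈ S} ∈ W} = {b | {c | a + (b + c) ∈ S} ∈ W} := by
    intro a
    simp only [add_assoc]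
  simp only [Set.mem_ofPred_eq, add_assoc]

theorem pure_conv (U : Ultrafilter X) : conv (pure 0) U = U := by
  ext S
  rw [mem_conv]
  simp [Ultrafilter.mem_pure]

/-- sequential convolution powers. -/
def pw (U : Ultrafilter X) : ℕ → Ultrafilter X
  | 0 => pure 0
  | k + 1 => conv U (pw U k)

theorem pw_add (U : Ultrafilter X) (k l : ℕ) : pw U (k + l) = conv (pw U k) (pw U l) := by
  induction k with
  | zero => rw [Nat.zero_add]; exact (pure_conv _).symm
  | succ k ih =>
    rw [Nat.succ_add]
    show conv U (pw U (k + l)) = conv (conv U (pw U k)) (pw U l)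
    rw [ih, conv_assoc]

theorem pw_mul (U : Ultrafilter X) (k l : ℕ) : pw U (k * l) = pw (pw U k) l := by
  induction l with
  | zero => rfl
  | succ l ih =>
    rw [Nat.mul_succ, Nat.add_comm, pw_add, ih]
    rfl

theorem pw_one (U : Ultrafilter X) : pw U 1 = U := by
  show conv U (pure 0) = U
  ext S
  rw [mem_conv]
  simp [Ultrafilter.mem_pure]

/-- law of the outcome of a process with respect to the sequence `x`. -/
noncomputable def law (x : ℕ → X) : Proc → Ultrafilter X
  | Proc.leaf => UU.map x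
  | Proc.node f => UU.bind (fun n =>
      (pw (law x (f n)) n.factorial).map (fun a => ((n.factorial : ℝ)⁻¹) • a))

/-- sets closed under finite averages. -/
def AvgClosed {E : Type*} [AddCommGroup E] [Module ℝ E] (H : Set E) : Prop :=
  ∀ m : ℕ, 1 ≤ m → ∀ u : Fin m → E, (∀ i, u i ∈ H) → (m : ℝ)⁻¹ • ∑ i, u i ∈ H

theorem pw_sum {V : Ultrafilter X} {H : Set X} (hH : H ∈ V) (k : ℕ) :
    {a | ∃ u : Fin k → X, (∀ i, u i ∈ H) ∧ a = ∑ i, u i} ∈ pw V k := by
  induction k with
  | zero =>
    show _ ∈ (pure (0 : X) : Ultrafilter X)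
    rw [Ultrafilter.mem_pure]
    exact ⟨Fin.elim0, fun i => i.elim0, by simp⟩
  | succ k ih =>
    show _ ∈ conv V (pw V k)
    rw [mem_conv]
    refine Filter.mem_of_superset hH ?_
    intro a ha
    refine Filter.mem_of_superset ih ?_
    rintro b ⟨u, hu, rfl⟩
    refine ⟨Fin.cons a u, ?_, ?_⟩
    · intro i
      refine Fin.cases ?_ ?_ i
      · exact ha
      · intro j; exact hu j
    · rw [Fin.sum_univ_succ]
      simp

theorem pw_avg {V : Ultrafilter X} {H : Set X} (hH : H ∈ V) (hc : AvgClosed H) (k : ℕ)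
    (hk : 1 ≤ k) : {a | (k : ℝ)⁻¹ • a ∈ H} ∈ pw V k := by
  refine Filter.mem_of_superset (pw_sum hH k) ?_
  rintro a ⟨u, hu, rfl⟩
  exact hc k hk u hu

theorem law_avg {x : ℕ → X} {H : Set X} (hH : ∀ᶠ s in (UU : Filter ℕ), x s ∈ H)
    (hc : AvgClosed H) (P : Proc) : H ∈ law x P := by
  induction P with
  | leaf => exact hH
  | node f ih =>
    show H ∈ UU.bind _
    rw [mem_bind]
    refine Filter.Eventually.of_forall ?_
    intro n
    have := pw_avg (ih n) hc n.factorial (Nat.succ_le_of_lt (Nat.factorial_pos n))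
    exact this

theorem avgClosed_of_convex {E : Type*} [AddCommGroup E] [Module ℝ E] {H : Set E}
    (hH : Convex ℝ H) : AvgClosed H := by
  intro m hm u hu
  have hm' : (0 : ℝ) < m := by exact_mod_cast hm
  have := hH.sum_mem (t := (Finset.univ : Finset (Fin m))) (w := fun _ => (m : ℝ)⁻¹) (z := u)
    (fun i _ => by positivity) (by simp [hm'.ne']) (fun i _ => hu i)
  rw [← Finset.smul_sum] at this
  exact this

end Laws

section RelSection

variable {X : Type*} [NormedAddCommGroup X] [NormedSpace ℝ X]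
variable {Y : Type*} [NormedAddCommGroup Y] [NormedSpace ℝ Y]

/-- the relation controlled in the couplings. -/
def rel (z : X) (α β D : ℝ) (a b : X) : Prop := ‖z + α • a - β • b‖ ≤ D

theorem rel_add {z₁ z₂ : X} {α β D₁ D₂ : ℝ} {a₁ b₁ a₂ b₂ : X} (h₁ : rel z₁ α β D₁ a₁ b₁)
    (h₂ : rel z₂ α β D₂ a₂ b₂) : rel (z₁ + z₂) α β (D₁ + D₂) (a₁ + a₂) (b₁ + b₂) := by
  unfold rel at *
  have e : z₁ + z₂ + α • (a₁ + a₂) - β • (b₁ + b₂) =
    (z₁ + α • a₁ - β • b₁) + (z₂ + α • a₂ - β • b₂) := by
    simp only [smul_add]; abel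
  rw [e]
  exact (norm_add_le _ _).trans (add_le_add h₁ h₂)

theorem sim_pw (hY : Function.Surjective (NormedSpace.inclusionInDoubleDual ℝ Y))
    {U V : Ultrafilter X} {α β D : ℝ} (m : ℕ) (z : Fin m → X)
    (h : ∀ i, Sim Y U V (rel (z i) α β D)) :
    Sim Y (pw U m) (pw V m) (rel (∑ i, z i) α β (m * D)) := by
  induction m with
  | zero =>
    apply Sim.of_eventually
    show _ ∈ (pure (0 : X) : Ultrafilter X)
    rw [Ultrafilter.mem_pure, Set.mem_ofPred_eq]
    show _ ∈ (pure (0 : X) : Ultrafilter X)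
    rw [Ultrafilter.mem_pure, Set.mem_ofPred_eq]
    simp [rel]
  | succ m ih =>
    have h1 := ih (fun i => z i.succ) (fun i => h i.succ)
    refine Sim.conv hY (h 0) ?_
    intro a₁ b₁ hab
    refine h1.mono' ?_
    intro a₂ b₂ hab₂
    have := rel_add hab hab₂
    rw [Fin.sum_univ_succ]
    have e : D + (m : ℝ) * D = ((m + 1 : ℕ) : ℝ) * D := by push_cast; ring
    rw [← e]
    exact this

/-- the main coupling property. -/
def Good (Y : Type*) [NormedAddCommGroup Y] [NormedSpace ℝ Y] (x : ℕ → X) (D : ℝ) (z : X) (l : ℝ)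
    (P P' : Proc) (N : ℕ) : Prop :=
  ∀ k : ℕ, 1 ≤ k → N ∣ k → ∀ r : ℕ, 1 ≤ r →
    Sim Y (pw (law x P) k) (pw (law x P') (k * r)) (rel ((k : ℝ) • z) l (l / r) (k * D))

/-- a vector is good for two sequences of processes. -/
def GV (Y : Type*) [NormedAddCommGroup Y] [NormedSpace ℝ Y] (x : ℕ → X) (l D : ℝ)
    (f f' : ℕ → Proc) (ζ : X) : Prop :=
  ∃ N : ℕ, 1 ≤ N ∧ ∀ᶠ n in (UU : Filter ℕ), ∀ᶠ n' in (UU : Filter ℕ),
    Good Y x D ζ l (f n) (f' n') N

theorem gv_avg (hY : Function.Surjective (NormedSpace.inclusionInDoubleDual ℝ Y))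
    (x : ℕ → X) (l D : ℝ) (f f' : ℕ → Proc) : AvgClosed {ζ : X | GV Y x l D f f' ζ} := by
  intro m hm u hu
  have hu' : ∀ i, GV Y x l D f f' (u i) := hu
  choose N hN1 hN2 using hu'
  refine ⟨m * ∏ i, N i, ?_, ?_⟩
  · have : 1 ≤ ∏ i, N i := Nat.succ_le_of_lt (Finset.prod_pos (fun i _ => hN1 i))
    exact Nat.mul_le_mul hm this
  · have h1 : ∀ᶠ n in (UU : Filter ℕ), ∀ i, ∀ᶠ n' in (UU : Filter ℕ),
        Good Y x D (u i) l (f n) (f' n') (N i) := Filter.eventually_all.mpr hN2
    filter_upwards [h1] with n hn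
    have h2 := Filter.eventually_all.mpr hn
    filter_upwards [h2] with n' hn'
    intro k hk hdvd r hr
    obtain ⟨k'', hk''⟩ := hdvd
    set k' : ℕ := (∏ i, N i) * k'' with hk'
    have hkk : k = k' * m := by rw [hk'', hk']; ring
    have hk'1 : 1 ≤ k' := by
      rcases Nat.eq_zero_or_pos k' with h | h
      · rw [h] at hkk; omega
      · exact h
    have hdv : ∀ i, N i ∣ k' := fun i =>
      Dvd.dvd.mul_right (Finset.dvd_prod_of_mem N (Finset.mem_univ i)) _
    have h3 : ∀ i, Sim Y (pw (law x (f n)) k') (pw (law x (f' n')) (k' * r))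
        (rel ((k' : ℝ) • u i) l (l / r) (k' * D)) := fun i => hn' i k' hk'1 (hdv i) r hr
    have h4 := sim_pw hY m (fun i => (k' : ℝ) • u i) h3
    rw [← pw_mul, ← pw_mul] at h4
    have e1 : k' * r * m = k * r := by rw [hkk]; ring
    rw [e1, ← hkk] at h4
    have hm0 : (m : ℝ) ≠ 0 := by
      have : (0 : ℝ) < m := by exact_mod_cast hm
      exact this.ne'
    have e2 : ∑ i, (k' : ℝ) • u i = (k : ℝ) • ((m : ℝ)⁻¹ • ∑ i, u i) := by
      rw [← Finset.smul_sum, smul_smul, hkk]
      push_cast
      rw [mul_assoc, mul_inv_cancel₀ hm0, mul_one]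
    have e3 : (m : ℝ) * ((k' : ℝ) * D) = (k : ℝ) * D := by
      rw [hkk]; push_cast; ring
    rw [e2, e3] at h4
    exact h4

end RelSection

end Pool.Agent.H34
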