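import Mathlib

/-!
Joint plays of two private averaging processes, tested against a reflexive space.
-/

set_option autoImplicit false

open Filter Topology

namespace Pool.Agent.H34

section WeakLimits

variable {ι : Type*} {Y : Type*} [NormedAddCommGroup Y] [NormedSpace ℝ Y]

/-- weak convergence of `y` to `y₀` along the ultrafilter `U`. -/
def WL (U : Ultrafilter ι) (y : ι → Y) (y₀ : Y) : Prop :=
  ∀ ψ : Y →L[ℝ] ℝ, Tendsto (fun a => ψ (y a)) U (𝓝 (ψ y₀))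

/-- weak star convergence of `φ` to `φ₀` along the ultrafilter `U`. -/
def WsL (U : Ultrafilter ι) (φ : ι → (Y →L[ℝ] ℝ)) (φ₀ : Y →L[ℝ] ℝ) : Prop :=
  ∀ v : Y, Tendsto (fun a => φ a v) U (𝓝 (φ₀ v))

theorem exists_wsl (U : Ultrafilter ι) (φ : ι → (Y →L[ℝ] ℝ)) (C : ℝ) (hφ : ∀ a, ‖φ a‖ ≤ C) :
    ∃ φ₀ : Y →L[ℝ] ℝ, ‖φ₀‖ ≤ C ∧ WsL U φ φ₀ := by
  have hcomp := WeakDual.isCompact_closedBall (𝕜 := ℝ) (E := Y) 0 C
  let g : ι → WeakDual ℝ Y := fun a => StrongDual.toWeakDual (φ a)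
  have hg : (U.map g : Filter (WeakDual ℝ Y)) ≤
      𝓟 (WeakDual.toStrongDual ⁻¹' Metric.closedBall (0 : StrongDual ℝ Y) C) := by
    rw [le_principal_iff]
    have : g ⁻¹' (WeakDual.toStrongDual ⁻¹' Metric.closedBall (0 : StrongDual ℝ Y) C) = Set.univ := by
      ext a
      simp only [Set.mem_preimage, Set.mem_univ, iff_true, Metric.mem_closedBall, dist_zero_right]
      exact hφ a
    rw [Ultrafilter.mem_coe, Ultrafilter.mem_map, this]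
    exact Filter.univ_mem
  obtain ⟨w, hw, hlim⟩ := hcomp.ultrafilter_le_nhds (U.map g) hg
  refine ⟨WeakDual.toStrongDual w, ?_, ?_⟩
  · simpa [Metric.mem_closedBall, dist_zero_right] using hw
  · intro v
    have h1 : Tendsto g U (𝓝 w) := hlim
    have h2 : Tendsto (fun w' : WeakDual ℝ Y => w' v) (𝓝 w) (𝓝 (w v)) :=
      (WeakDual.eval_continuous v).tendsto w
    exact h2.comp h1

theorem exists_wl (hY : Function.Surjective (NormedSpace.inclusionInDoubleDual ℝ Y))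
    (U : Ultrafilter ι) (y : ι → Y) (C : ℝ) (hy : ∀ a, ‖y a‖ ≤ C) :
    ∃ y₀ : Y, ‖y₀‖ ≤ C ∧ WL U y y₀ := by
  obtain ⟨Φ, hΦ, hlim⟩ := exists_wsl (Y := StrongDual ℝ Y) U
    (fun a => NormedSpace.inclusionInDoubleDual ℝ Y (y a)) C (by
      intro a
      exact (NormedSpace.double_dual_bound ℝ Y (y a)).trans (hy a))
  obtain ⟨y₀, hy₀⟩ := hY Φ
  refine ⟨y₀, ?_, ?_⟩
  · have : ‖NormedSpace.inclusionInDoubleDual ℝ Y y₀‖ = ‖y₀‖ :=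
      (NormedSpace.inclusionInDoubleDualLi ℝ (E := Y)).norm_map y₀
    rw [← this, hy₀]
    exact hΦ
  · intro ψ
    have := hlim ψ
    rw [← hy₀] at this
    simpa using this

end WeakLimits

section SimSection

set_option linter.unusedSectionVars false

variable {X : Type*} [NormedAddCommGroup X] [NormedSpace ℝ X]
variable (Y : Type*) [NormedAddCommGroup Y] [NormedSpace ℝ Y]

/-- sequential convolution of ultrafilters. -/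
def conv (U V : Ultrafilter X) : Ultrafilter X := U.bind (fun a => V.map (fun b => a + b))

theorem mem_conv {U V : Ultrafilter X} {S : Set X} :
    S ∈ conv U V ↔ {a | {b | a + b ∈ S} ∈ V} ∈ U := Iff.rfl

theorem mem_bind {ι : Type*} {U : Ultrafilter ι} {f : ι → Ultrafilter X} {S : Set X} :
    S ∈ U.bind f ↔ {n | S ∈ f n} ∈ U := Iff.rfl

/-- Two processes with laws `U` and `V` can be played jointly, each with its own private moves,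
so that `Q` holds between the outcomes. -/
def Sim (U V : Ultrafilter X) (Q : X → X → Prop) : Prop :=
  ∀ (y : X → Y) (φ : X → (Y →L[ℝ] ℝ)) (C : ℝ), (∀ a, ‖y a‖ ≤ C) → (∀ a, ‖φ a‖ ≤ C) →
    ∀ (y₀ : Y) (φ₀ : Y →L[ℝ] ℝ), WL U y y₀ → WsL V φ φ₀ →
      ∀ E₁ ∈ U, ∀ E₂ ∈ V, ∀ ε > (0 : ℝ), ∃ a ∈ E₁, ∃ b ∈ E₂, Q a b ∧ |φ b (y a) - φ₀ y₀| < ε

variable {Y}

theorem Sim.mono {U V : Ultrafilter X} {Q Q' : X → X → Prop} (h : Sim Y U V Q)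
    (A B : Set X) (hA : A ∈ U) (hB : B ∈ V) (hQ : ∀ a ∈ A, ∀ b ∈ B, Q a b → Q' a b) :
    Sim Y U V Q' := by
  intro y φ C hy hφ y₀ φ₀ hyl hφl E₁ hE₁ E₂ hE₂ ε hε
  obtain ⟨a, ha, b, hb, hab, hlt⟩ := h y φ C hy hφ y₀ φ₀ hyl hφl (E₁ ∩ A)
    (Filter.inter_mem hE₁ hA) (E₂ ∩ B) (Filter.inter_mem hE₂ hB) ε hε
  exact ⟨a, ha.1, b, hb.1, hQ a ha.2 b hb.2 hab, hlt⟩

theorem Sim.mono' {U V : Ultrafilter X} {Q Q' : X → X → Prop} (h : Sim Y U V Q)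
    (hQ : ∀ a b, Q a b → Q' a b) : Sim Y U V Q' :=
  h.mono Set.univ Set.univ Filter.univ_mem Filter.univ_mem (fun a _ b _ => hQ a b)

theorem Sim.of_eventually {U V : Ultrafilter X} {Q : X → X → Prop}
    (h : {a | {b | Q a b} ∈ V} ∈ U) : Sim Y U V Q := by
  intro y φ C hy hφ y₀ φ₀ hyl hφl E₁ hE₁ E₂ hE₂ ε hε
  have h1 : ∀ᶠ a in (U : Filter X), |φ₀ (y a) - φ₀ y₀| < ε / 2 := by
    have := (Metric.tendsto_nhds.mp (hyl φ₀)) (ε / 2) (by linarith)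
    simpa [Real.dist_eq] using this
  obtain ⟨a, ⟨ha1, ha2⟩, ha3⟩ :=
    Ultrafilter.nonempty_of_mem (Filter.inter_mem (Filter.inter_mem hE₁ h) h1)
  have h2 : ∀ᶠ b in (V : Filter X), |φ b (y a) - φ₀ (y a)| < ε / 2 := by
    have := (Metric.tendsto_nhds.mp (hφl (y a))) (ε / 2) (by linarith)
    simpa [Real.dist_eq] using this
  obtain ⟨b, ⟨hb1, hb2⟩, hb3⟩ :=
    Ultrafilter.nonempty_of_mem (Filter.inter_mem (Filter.inter_mem hE₂ ha2) h2)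
  refine ⟨a, ha1, b, hb1, hb2, ?_⟩
  have e1 : φ b (y a) - φ₀ y₀ = (φ b (y a) - φ₀ (y a)) + (φ₀ (y a) - φ₀ y₀) := by ring
  rw [e1]
  refine (abs_add_le _ _).trans_lt ?_
  have h3 : |φ b (y a) - φ₀ (y a)| < ε / 2 := hb3
  have h4 : |φ₀ (y a) - φ₀ y₀| < ε / 2 := ha3
  linarith

theorem Sim.map {U V : Ultrafilter X} {Q : X → X → Prop} (h₁ h₂ : X → X)
    (h : Sim Y U V (fun a b => Q (h₁ a) (h₂ b))) : Sim Y (U.map h₁) (V.map h₂) Q := by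
  intro y φ C hy hφ y₀ φ₀ hyl hφl E₁ hE₁ E₂ hE₂ ε hε
  obtain ⟨a, ha, b, hb, hab, hlt⟩ := h (fun a => y (h₁ a)) (fun b => φ (h₂ b)) C
    (fun a => hy _) (fun b => hφ _) y₀ φ₀ (fun ψ => hyl ψ) (fun v => hφl v)
    (h₁ ⁻¹' E₁) hE₁ (h₂ ⁻¹' E₂) hE₂ ε hε
  exact ⟨h₁ a, ha, h₂ b, hb, hab, hlt⟩

theorem wl_of_conv {U₁ U₂ : Ultrafilter X} {y : X → Y} {y₀ : Y} {y' : X → Y}
    (h : WL (conv U₁ U₂) y y₀) (h' : ∀ a, WL U₂ (fun b => y (a + b)) (y' a)) :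
    WL U₁ y' y₀ := by
  intro ψ
  rw [Metric.tendsto_nhds]
  intro ε hε
  have h1 := (Metric.tendsto_nhds.mp (h ψ)) (ε / 2) (by linarith)
  have h2 : {a | {b | dist (ψ (y (a + b))) (ψ y₀) < ε / 2} ∈ U₂} ∈ U₁ := h1
  refine Filter.mem_of_superset h2 ?_
  intro a ha
  have h3 : ∀ᶠ b in (U₂ : Filter X), dist (ψ (y (a + b))) (ψ y₀) ≤ ε / 2 := by
    refine Filter.mem_of_superset ha ?_
    intro b hb
    rw [Set.mem_ofPred_eq] at hb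
    exact le_of_lt hb
  have h4 : Tendsto (fun b => dist (ψ (y (a + b))) (ψ y₀)) U₂ (𝓝 (dist (ψ (y' a)) (ψ y₀))) :=
    (h' a ψ).dist tendsto_const_nhds
  have h5 : dist (ψ (y' a)) (ψ y₀) ≤ ε / 2 := le_of_tendsto h4 h3
  show dist (ψ (y' a)) (ψ y₀) < ε
  linarith

theorem wsl_of_conv {V₁ V₂ : Ultrafilter X} {φ : X → (Y →L[ℝ] ℝ)} {φ₀ : Y →L[ℝ] ℝ}
    {φ' : X → (Y →L[ℝ] ℝ)}
    (h : WsL (conv V₁ V₂) φ φ₀) (h' : ∀ a, WsL V₂ (fun b => φ (a + b)) (φ' a)) :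
    WsL V₁ φ' φ₀ := by
  intro v
  rw [Metric.tendsto_nhds]
  intro ε hε
  have h1 := (Metric.tendsto_nhds.mp (h v)) (ε / 2) (by linarith)
  have h2 : {a | {b | dist (φ (a + b) v) (φ₀ v) < ε / 2} ∈ V₂} ∈ V₁ := h1
  refine Filter.mem_of_superset h2 ?_
  intro a ha
  have h3 : ∀ᶠ b in (V₂ : Filter X), dist (φ (a + b) v) (φ₀ v) ≤ ε / 2 := by
    refine Filter.mem_of_superset ha ?_
    intro b hb
    rw [Set.mem_ofPred_eq] at hb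
    exact le_of_lt hb
  have h4 : Tendsto (fun b => dist (φ (a + b) v) (φ₀ v)) V₂ (𝓝 (dist (φ' a v) (φ₀ v))) :=
    (h' a v).dist tendsto_const_nhds
  have h5 : dist (φ' a v) (φ₀ v) ≤ ε / 2 := le_of_tendsto h4 h3
  show dist (φ' a v) (φ₀ v) < ε
  linarith

theorem wl_of_bind {ι : Type*} {U : Ultrafilter ι} {f : ι → Ultrafilter X} {y : X → Y} {y₀ : Y}
    {y' : ι → Y} (h : WL (U.bind f) y y₀) (h' : ∀ n, WL (f n) y (y' n)) :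
    WL U y' y₀ := by
  intro ψ
  rw [Metric.tendsto_nhds]
  intro ε hε
  have h1 := (Metric.tendsto_nhds.mp (h ψ)) (ε / 2) (by linarith)
  have h2 : {n | {b | dist (ψ (y b)) (ψ y₀) < ε / 2} ∈ f n} ∈ U := h1
  refine Filter.mem_of_superset h2 ?_
  intro n hn
  have h3 : ∀ᶠ b in (f n : Filter X), dist (ψ (y b)) (ψ y₀) ≤ ε / 2 := by
    refine Filter.mem_of_superset hn ?_
    intro b hb
    rw [Set.mem_ofPred_eq] at hb
    exact le_of_lt hb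
  have h4 : Tendsto (fun b => dist (ψ (y b)) (ψ y₀)) (f n) (𝓝 (dist (ψ (y' n)) (ψ y₀))) :=
    (h' n ψ).dist tendsto_const_nhds
  have h5 : dist (ψ (y' n)) (ψ y₀) ≤ ε / 2 := le_of_tendsto h4 h3
  show dist (ψ (y' n)) (ψ y₀) < ε
  linarith

theorem wsl_of_bind {ι : Type*} {V : Ultrafilter ι} {f : ι → Ultrafilter X}
    {φ : X → (Y →L[ℝ] ℝ)} {φ₀ : Y →L[ℝ] ℝ} {φ' : ι → (Y →L[ℝ] ℝ)}
    (h : WsL (V.bind f) φ φ₀) (h' : ∀ n, WsL (f n) φ (φ' n)) :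
    WsL V φ' φ₀ := by
  intro v
  rw [Metric.tendsto_nhds]
  intro ε hε
  have h1 := (Metric.tendsto_nhds.mp (h v)) (ε / 2) (by linarith)
  have h2 : {n | {b | dist (φ b v) (φ₀ v) < ε / 2} ∈ f n} ∈ V := h1
  refine Filter.mem_of_superset h2 ?_
  intro n hn
  have h3 : ∀ᶠ b in (f n : Filter X), dist (φ b v) (φ₀ v) ≤ ε / 2 := by
    refine Filter.mem_of_superset hn ?_
    intro b hb
    rw [Set.mem_ofPred_eq] at hb
    exact le_of_lt hb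
  have h4 : Tendsto (fun b => dist (φ b v) (φ₀ v)) (f n) (𝓝 (dist (φ' n v) (φ₀ v))) :=
    (h' n v).dist tendsto_const_nhds
  have h5 : dist (φ' n v) (φ₀ v) ≤ ε / 2 := le_of_tendsto h4 h3
  show dist (φ' n v) (φ₀ v) < ε
  linarith

theorem Sim.conv (hY : Function.Surjective (NormedSpace.inclusionInDoubleDual ℝ Y))
    {U₁ U₂ V₁ V₂ : Ultrafilter X} {Q₁ : X → X → Prop} {Q : X → X → Prop}
    (h₁ : Sim Y U₁ V₁ Q₁)
    (h₂ : ∀ a₁ b₁, Q₁ a₁ b₁ → Sim Y U₂ V₂ (fun a₂ b₂ => Q (a₁ + a₂) (b₁ + b₂))) :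
    Sim Y (conv U₁ U₂) (conv V₁ V₂) Q := by
  intro y φ C hy hφ y₀ φ₀ hyl hφl E₁ hE₁ E₂ hE₂ ε hε
  choose y' hy'1 hy'2 using fun a : X =>
    exists_wl hY U₂ (fun b => y (a + b)) C (fun b => hy _)
  choose φ' hφ'1 hφ'2 using fun a : X =>
    exists_wsl V₂ (fun b => φ (a + b)) C (fun b => hφ _)
  have hyl' : WL U₁ y' y₀ := wl_of_conv hyl hy'2
  have hφl' : WsL V₁ φ' φ₀ := wsl_of_conv hφl hφ'2
  obtain ⟨a₁, ha₁, b₁, hb₁, hab₁, hlt₁⟩ := h₁ y' φ' C hy'1 hφ'1 y₀ φ₀ hyl' hφl'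
    {a | {b | a + b ∈ E₁} ∈ U₂} hE₁ {a | {b | a + b ∈ E₂} ∈ V₂} hE₂ (ε / 2) (by linarith)
  obtain ⟨a₂, ha₂, b₂, hb₂, hab₂, hlt₂⟩ := h₂ a₁ b₁ hab₁ (fun b => y (a₁ + b))
    (fun b => φ (b₁ + b)) C (fun b => hy _) (fun b => hφ _) (y' a₁) (φ' b₁) (hy'2 a₁) (hφ'2 b₁)
    {b | a₁ + b ∈ E₁} ha₁ {b | b₁ + b ∈ E₂} hb₁ (ε / 2) (by linarith)
  refine ⟨a₁ + a₂, ha₂, b₁ + b₂, hb₂, hab₂, ?_⟩
  have e1 : φ (b₁ + b₂) (y (a₁ + a₂)) - φ₀ y₀ =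
    (φ (b₁ + b₂) (y (a₁ + a₂)) - φ' b₁ (y' a₁)) + (φ' b₁ (y' a₁) - φ₀ y₀) := by ring
  rw [e1]
  refine (abs_add_le _ _).trans_lt ?_
  have h3 : |φ (b₁ + b₂) (y (a₁ + a₂)) - φ' b₁ (y' a₁)| < ε / 2 := hlt₂
  linarith

theorem Sim.bind_left (hY : Function.Surjective (NormedSpace.inclusionInDoubleDual ℝ Y))
    {ι : Type*} {U : Ultrafilter ι} {f : ι → Ultrafilter X} {V : Ultrafilter X}
    {Q : X → X → Prop} (h : {n | Sim Y (f n) V Q} ∈ U) : Sim Y (U.bind f) V Q := by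
  intro y φ C hy hφ y₀ φ₀ hyl hφl E₁ hE₁ E₂ hE₂ ε hε
  choose y' hy'1 hy'2 using fun n : ι => exists_wl hY (f n) y C hy
  have hyl' : WL U y' y₀ := wl_of_bind hyl hy'2
  have h1 : ∀ᶠ n in (U : Filter ι), |φ₀ (y' n) - φ₀ y₀| < ε / 2 := by
    have := (Metric.tendsto_nhds.mp (hyl' φ₀)) (ε / 2) (by linarith)
    simpa [Real.dist_eq] using this
  have hE₁' : {n | E₁ ∈ f n} ∈ U := hE₁
  obtain ⟨n, ⟨hn1, hn2⟩, hn3⟩ :=
    Ultrafilter.nonempty_of_mem (Filter.inter_mem (Filter.inter_mem hE₁' h) h1)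
  have hn2' : Sim Y (f n) V Q := hn2
  obtain ⟨a, ha, b, hb, hab, hlt⟩ := hn2' y φ C hy hφ (y' n) φ₀ (hy'2 n) hφl E₁ hn1 E₂ hE₂
    (ε / 2) (by linarith)
  refine ⟨a, ha, b, hb, hab, ?_⟩
  have e1 : φ b (y a) - φ₀ y₀ = (φ b (y a) - φ₀ (y' n)) + (φ₀ (y' n) - φ₀ y₀) := by ring
  rw [e1]
  refine (abs_add_le _ _).trans_lt ?_
  have h4 : |φ₀ (y' n) - φ₀ y₀| < ε / 2 := hn3
  linarith

theorem Sim.bind_right {ι : Type*} {V : Ultrafilter ι} {f : ι → Ultrafilter X}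
    {U : Ultrafilter X}
    {Q : X → X → Prop} (h : {n | Sim Y U (f n) Q} ∈ V) : Sim Y U (V.bind f) Q := by
  intro y φ C hy hφ y₀ φ₀ hyl hφl E₁ hE₁ E₂ hE₂ ε hε
  choose φ' hφ'1 hφ'2 using fun n : ι => exists_wsl (f n) φ C hφ
  have hφl' : WsL V φ' φ₀ := wsl_of_bind hφl hφ'2
  have h1 : ∀ᶠ n in (V : Filter ι), |φ' n y₀ - φ₀ y₀| < ε / 2 := by
    have := (Metric.tendsto_nhds.mp (hφl' y₀)) (ε / 2) (by linarith)
    simpa [Real.dist_eq] using this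
  have hE₂' : {n | E₂ ∈ f n} ∈ V := hE₂
  obtain ⟨n, ⟨hn1, hn2⟩, hn3⟩ :=
    Ultrafilter.nonempty_of_mem (Filter.inter_mem (Filter.inter_mem hE₂' h) h1)
  have hn2' : Sim Y U (f n) Q := hn2
  obtain ⟨a, ha, b, hb, hab, hlt⟩ := hn2' y φ C hy hφ y₀ (φ' n) hyl (hφ'2 n) E₁ hE₁ E₂ hn1
    (ε / 2) (by linarith)
  refine ⟨a, ha, b, hb, hab, ?_⟩
  have e1 : φ b (y a) - φ₀ y₀ = (φ b (y a) - φ' n y₀) + (φ' n y₀ - φ₀ y₀) := by ring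
  rw [e1]
  refine (abs_add_le _ _).trans_lt ?_
  have h4 : |φ' n y₀ - φ₀ y₀| < ε / 2 := hn3
  linarith

end SimSection

end Pool.Agent.H34
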