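import Pool.Agent.H34.Proc

/-!
The inductive step of the coupling argument.
-/

set_option autoImplicit false
set_option linter.unusedSectionVars false

open Filter Topology

namespace Pool.Agent.H34

section

variable {X : Type*} [NormedAddCommGroup X] [NormedSpace ℝ X]
variable {Y : Type*} [NormedAddCommGroup Y] [NormedSpace ℝ Y]

theorem map_id' (V : Ultrafilter X) : V.map (fun a => a) = V := by
  ext S
  rw [Ultrafilter.mem_map]
  exact Iff.rfl

theorem Sim.map_left {U V : Ultrafilter X} {Q : X → X → Prop} (h₁ : X → X)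
    (h : Sim Y U V (fun a b => Q (h₁ a) b)) : Sim Y (U.map h₁) V Q := by
  have := Sim.map (Q := Q) h₁ (fun b => b) h
  rwa [map_id'] at this

theorem Sim.map_right {U V : Ultrafilter X} {Q : X → X → Prop} (h₂ : X → X)
    (h : Sim Y U V (fun a b => Q a (h₂ b))) : Sim Y U (V.map h₂) Q := by
  have := Sim.map (Q := Q) (fun a => a) h₂ h
  rwa [map_id'] at this

theorem rel_smul {z : X} {α β D : ℝ} {a b : X} {t : ℝ} (ht : 0 ≤ t) (h : rel z α β D a b) :
    rel (t • z) (t * α) (t * β) (t * D) a b := by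
  unfold rel at *
  have e : t • z + (t * α) • a - (t * β) • b = t • (z + α • a - β • b) := by
    simp only [smul_add, smul_sub, smul_smul]
  rw [e, norm_smul, Real.norm_of_nonneg ht]
  exact mul_le_mul_of_nonneg_left h ht

theorem one_block (hY : Function.Surjective (NormedSpace.inclusionInDoubleDual ℝ Y))
    (x : ℕ → X) (l D : ℝ) (f f' : ℕ → Proc) (ζ : X) (h : GV Y x l D f f' ζ) (r : ℕ) (hr : 1 ≤ r) :
    Sim Y (law x (Proc.node f)) (pw (law x (Proc.node f')) r) (rel ζ l (l / r) D) := by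
  obtain ⟨N, hN1, hN⟩ := h
  have hr0 : (r : ℝ) ≠ 0 := by
    have : (0 : ℝ) < r := by exact_mod_cast hr
    exact this.ne'
  show Sim Y (UU.bind (fun n =>
      (pw (law x (f n)) n.factorial).map (fun a => ((n.factorial : ℝ)⁻¹) • a)))
      (pw (law x (Proc.node f')) r) (rel ζ l (l / r) D)
  apply Sim.bind_left hY
  show ∀ᶠ n in (UU : Filter ℕ), _
  filter_upwards [hN, uu_of_ge (r * N)] with n hn hge
  apply Sim.map_left
  have hpos : 0 < r * N := Nat.mul_pos hr hN1
  obtain ⟨c₀, hc₀⟩ := Nat.dvd_factorial hpos hge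
  set K : ℕ := N * c₀ with hK
  have hnK : n.factorial = K * r := by rw [hc₀, hK]; ring
  have hK1 : 1 ≤ K := by
    rcases Nat.eq_zero_or_pos K with h | h
    · rw [h] at hnK
      have := Nat.factorial_pos n
      omega
    · exact h
  have hK0 : (K : ℝ) ≠ 0 := by
    have : (0 : ℝ) < K := by exact_mod_cast hK1
    exact this.ne'
  have hNK : N ∣ K := ⟨c₀, rfl⟩
  have hKn : K ∣ n.factorial := ⟨r, hnK⟩
  have key : Sim Y (pw (law x (f n)) K) (law x (Proc.node f'))
      (rel ((r : ℝ)⁻¹ • ζ) (l * (n.factorial : ℝ)⁻¹) (l / r) (D / r)) := by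
    show Sim Y (pw (law x (f n)) K) (UU.bind (fun n =>
      (pw (law x (f' n)) n.factorial).map (fun a => ((n.factorial : ℝ)⁻¹) • a))) _
    apply Sim.bind_right
    show ∀ᶠ n' in (UU : Filter ℕ), _
    filter_upwards [hn, uu_of_ge n] with n' hn' hge'
    apply Sim.map_right
    obtain ⟨r', hr'⟩ := hKn.trans (Nat.factorial_dvd_factorial hge')
    have hr'1 : 1 ≤ r' := by
      rcases Nat.eq_zero_or_pos r' with h | h
      · rw [h] at hr'
        have := Nat.factorial_pos n'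
        omega
      · exact h
    have hr'0 : (r' : ℝ) ≠ 0 := by
      have : (0 : ℝ) < r' := by exact_mod_cast hr'1
      exact this.ne'
    have h5 := hn' K hK1 hNK r' hr'1
    rw [← hr'] at h5
    refine h5.mono' ?_
    intro a b hab
    have h6 := rel_smul (t := ((K : ℝ) * r)⁻¹) (by positivity) hab
    have e1 : ((K : ℝ) * r)⁻¹ • ((K : ℝ) • ζ) = (r : ℝ)⁻¹ • ζ := by
      rw [smul_smul]
      congr 1
      field_simp
    have e2 : ((K : ℝ) * r)⁻¹ * l = l * (n.factorial : ℝ)⁻¹ := by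
      rw [hnK]; push_cast; ring
    have e3 : ((K : ℝ) * r)⁻¹ * (l / r') = (l / r) * (n'.factorial : ℝ)⁻¹ := by
      rw [hr']; push_cast; field_simp
    have e4 : ((K : ℝ) * r)⁻¹ * ((K : ℝ) * D) = D / r := by
      field_simp
    rw [e1, e2, e3, e4] at h6
    unfold rel at *
    rw [smul_smul]
    exact h6
  have h7 := sim_pw hY r (fun _ => (r : ℝ)⁻¹ • ζ) (fun _ => key)
  rw [← pw_mul, ← hnK] at h7
  refine h7.mono' ?_
  intro a b hab
  have e1 : ∑ _i : Fin r, (r : ℝ)⁻¹ • ζ = ζ := by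
    rw [Finset.sum_const, Finset.card_univ, Fintype.card_fin, ← Nat.cast_smul_eq_nsmul ℝ, smul_smul,
      mul_inv_cancel₀ hr0, one_smul]
  have e2 : (r : ℝ) * (D / r) = D := by field_simp
  rw [e1, e2] at hab
  unfold rel at *
  rw [smul_smul]
  exact hab

theorem avg_affine {m : ℕ} (hm : 1 ≤ m) (w : X) (β : ℝ) (v : Fin m → X) :
    (m : ℝ)⁻¹ • ∑ i, (w + β • v i) = w + β • ((m : ℝ)⁻¹ • ∑ i, v i) := by
  have hm0 : (m : ℝ) ≠ 0 := by
    have : (0 : ℝ) < m := by exact_mod_cast hm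
    exact this.ne'
  rw [Finset.sum_add_distrib, smul_add, Finset.sum_const, Finset.card_univ, Fintype.card_fin,
    ← Nat.cast_smul_eq_nsmul ℝ, smul_smul, inv_mul_cancel₀ hm0, one_smul, ← Finset.smul_sum,
    smul_comm]

theorem step_core (hY : Function.Surjective (NormedSpace.inclusionInDoubleDual ℝ Y))
    (x : ℕ → X) (z : X) (l D : ℝ) (p q : ℕ) (hp : 1 ≤ p) (hpq : p < q) (f f' : ℕ → Proc)
    (h : ∀ᶠ s in (UU : Filter ℕ), ∀ᶠ t in (UU : Filter ℕ),
      GV Y x (l * (1 - (p : ℝ) / q)) D f f' (z + (l * ((p : ℝ) / q)) • (x s - x t))) :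
    Good Y x D z l (Proc.node f) (Proc.node f') q := by
  intro k hk hdvd r hr
  obtain ⟨k₀, hk₀⟩ := hdvd
  have hk₀1 : 1 ≤ k₀ := by
    rcases Nat.eq_zero_or_pos k₀ with h | h
    · rw [h] at hk₀; omega
    · exact h
  set c : ℝ := (p : ℝ) / q with hc
  set k₁ : ℕ := p * k₀ with hk₁
  set k₂ : ℕ := (q - p) * k₀ with hk₂
  have hsum : k = k₁ + k₂ := by
    rw [hk₀, hk₁, hk₂, ← Nat.add_mul]
    congr 1
    omega
  have hk₁1 : 1 ≤ k₁ := Nat.mul_pos hp hk₀1
  have hk₂1 : 1 ≤ k₂ := Nat.mul_pos (by omega) hk₀1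
  have hqr : (0 : ℝ) < q := by
    have : 0 < q := by omega
    exact_mod_cast this
  have hk₀r : (0 : ℝ) < k₀ := by exact_mod_cast hk₀1
  have hk₁r : (0 : ℝ) < k₁ := by exact_mod_cast hk₁1
  have hk₂r : (0 : ℝ) < k₂ := by exact_mod_cast hk₂1
  have hrr : (0 : ℝ) < r := by exact_mod_cast hr
  have hk₁c : (k₁ : ℝ) = c * k := by
    rw [hc, hk₁, hk₀]; push_cast; field_simp
  have hk₂c : (k₂ : ℝ) = (1 - c) * k := by
    have : (k : ℝ) = k₁ + k₂ := by rw [hsum]; push_cast; ring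
    have h2 : (1 - c) * (k : ℝ) = k - c * k := by ring
    rw [h2, ← hk₁c]; linarith
  have hkr : (0 : ℝ) < k := by exact_mod_cast hk
  have hc1 : 0 < 1 - c := by
    by_contra hcon
    have : (k₂ : ℝ) ≤ 0 := by
      rw [hk₂c]
      exact mul_nonpos_of_nonpos_of_nonneg (not_lt.mp hcon) hkr.le
    linarith
  have hc0 : 0 < c := by
    rw [hc]
    have : (0 : ℝ) < p := by exact_mod_cast hp
    positivity
  have e1 : pw (law x (Proc.node f)) k =
      conv (pw (law x (Proc.node f)) k₁) (pw (law x (Proc.node f)) k₂) := by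
    rw [← pw_add, ← hsum]
  have e2 : pw (law x (Proc.node f')) (k * r) =
      conv (pw (law x (Proc.node f')) (k₁ * r)) (pw (law x (Proc.node f')) (k₂ * r)) := by
    rw [← pw_add, ← Nat.add_mul, ← hsum]
  rw [e1, e2]
  have hk₁r1 : 1 ≤ k₁ * r := Nat.mul_pos hk₁1 hr
  refine Sim.conv hY (Q₁ := fun a₁ b₁ => GV Y x (l * (1 - c)) D f f'
    (z + (l * c) • ((k₁ : ℝ)⁻¹ • a₁ - ((k₁ * r : ℕ) : ℝ)⁻¹ • b₁))) ?_ ?_
  · -- first part
    apply Sim.of_eventually
    let H1 : Set X := {u | ∀ᶠ t in (UU : Filter ℕ),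
      GV Y x (l * (1 - c)) D f f' (z + (l * c) • (u - x t))}
    have hH1 : AvgClosed H1 := by
      intro m hm u hu
      have hu' : ∀ i, ∀ᶠ t in (UU : Filter ℕ),
        GV Y x (l * (1 - c)) D f f' (z + (l * c) • (u i - x t)) := hu
      have hu'' := Filter.eventually_all.mpr hu'
      show ∀ᶠ t in (UU : Filter ℕ), _
      filter_upwards [hu''] with t ht
      have h3 := gv_avg hY x (l * (1 - c)) D f f' m hm
        (fun i => (z - (l * c) • x t) + (l * c) • u i) (by
          intro i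
          have := ht i
          have e : z + (l * c) • (u i - x t) = (z - (l * c) • x t) + (l * c) • u i := by
            rw [smul_sub]; abel
          rw [e] at this
          exact this)
      rw [avg_affine hm] at h3
      have e : z + (l * c) • ((m : ℝ)⁻¹ • ∑ i, u i - x t) =
          (z - (l * c) • x t) + (l * c) • ((m : ℝ)⁻¹ • ∑ i, u i) := by
        rw [smul_sub]; abel
      rw [e]
      exact h3
    have h4 := pw_avg (law_avg (x := x) (H := H1) h hH1 (Proc.node f)) hH1 k₁ hk₁1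
    refine Filter.mem_of_superset h4 ?_
    intro a ha
    have ha' : ∀ᶠ t in (UU : Filter ℕ),
      GV Y x (l * (1 - c)) D f f' (z + (l * c) • ((k₁ : ℝ)⁻¹ • a - x t)) := ha
    let H2 : Set X := {v | GV Y x (l * (1 - c)) D f f' (z + (l * c) • ((k₁ : ℝ)⁻¹ • a - v))}
    have hH2 : AvgClosed H2 := by
      intro m hm u hu
      have hu' : ∀ i, GV Y x (l * (1 - c)) D f f' (z + (l * c) • ((k₁ : ℝ)⁻¹ • a - u i)) := hu
      have h3 := gv_avg hY x (l * (1 - c)) D f f' m hm
        (fun i => (z + (l * c) • (k₁ : ℝ)⁻¹ • a) + (-(l * c)) • u i) (by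
          intro i
          have := hu' i
          have e : z + (l * c) • ((k₁ : ℝ)⁻¹ • a - u i) =
              (z + (l * c) • (k₁ : ℝ)⁻¹ • a) + (-(l * c)) • u i := by
            rw [smul_sub, neg_smul]; abel
          rw [e] at this
          exact this)
      rw [avg_affine hm] at h3
      show GV Y x (l * (1 - c)) D f f' (z + (l * c) • ((k₁ : ℝ)⁻¹ • a - (m : ℝ)⁻¹ • ∑ i, u i))
      have e : z + (l * c) • ((k₁ : ℝ)⁻¹ • a - (m : ℝ)⁻¹ • ∑ i, u i) =
          (z + (l * c) • (k₁ : ℝ)⁻¹ • a) + (-(l * c)) • ((m : ℝ)⁻¹ • ∑ i, u i) := by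
        rw [smul_sub, neg_smul]; abel
      rw [e]
      exact h3
    exact pw_avg (law_avg (x := x) (H := H2) ha' hH2 (Proc.node f')) hH2 (k₁ * r) hk₁r1
  · -- second part
    intro a₁ b₁ hζ
    set ζ : X := z + (l * c) • ((k₁ : ℝ)⁻¹ • a₁ - ((k₁ * r : ℕ) : ℝ)⁻¹ • b₁) with hζdef
    have hb := one_block hY x (l * (1 - c)) D f f' ζ hζ r hr
    have h7 := sim_pw hY k₂ (fun _ => ζ) (fun _ => hb)
    rw [← pw_mul, Nat.mul_comm r k₂] at h7
    refine h7.mono' ?_
    intro a₂ b₂ hab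
    have h8 := rel_smul (t := (1 - c)⁻¹) (by positivity) hab
    unfold rel at *
    have hne : (1 - c) ≠ 0 := hc1.ne'
    have e3 : (1 - c)⁻¹ * ((k₂ : ℝ) * D) = k * D := by
      rw [hk₂c]; field_simp
    rw [e3] at h8
    refine le_of_eq_of_le ?_ h8
    congr 1
    rw [Finset.sum_const, Finset.card_univ, Fintype.card_fin, ← Nat.cast_smul_eq_nsmul ℝ, hζdef]
    simp only [smul_add, smul_sub, smul_smul]
    have e4 : (1 - c)⁻¹ * (k₂ : ℝ) = k := by
      rw [hk₂c]; field_simp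
    have e5 : (1 - c)⁻¹ * ((k₂ : ℝ) * (l * c * (k₁ : ℝ)⁻¹)) = l := by
      rw [hk₂c, hk₁c]; field_simp
    have e6 : (1 - c)⁻¹ * ((k₂ : ℝ) * (l * c * ((k₁ * r : ℕ) : ℝ)⁻¹)) = l / r := by
      push_cast
      rw [hk₂c, hk₁c]; field_simp
    have e7 : (1 - c)⁻¹ * (l * (1 - c)) = l := by field_simp
    have e8 : (1 - c)⁻¹ * (l * (1 - c) / r) = l / r := by field_simp
    rw [e4, e5, e6, e7, e8]
    abel

end

end Pool.Agent.H34
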